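import Mathlib

set_option autoImplicit false

namespace Pool.Agent.Results.MP_ace2a1_co.Cex

/-- Chain-structured system on the vertex set `ZMod n`: in some cyclic ordering `v` of the
vertices every hyperedge is a nonempty run of cyclically consecutive vertices. -/
def Chain {n : ℕ} (E : Finset (Finset (ZMod n))) : Prop :=
  ∃ v : Equiv.Perm (ZMod n), ∀ e ∈ E, ∃ (i : ZMod n) (l : ℕ), 1 ≤ l ∧ l ≤ n ∧
    e = (Finset.range l).image fun t : ℕ => v (i + t)

/-- Exactly two 2-edges, and every other hyperedge has at least three vertices. -/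
def TwoPairs {n : ℕ} (E : Finset (Finset (ZMod n))) : Prop :=
  (E.filter fun e => e.card = 2).card = 2 ∧ ∀ e ∈ E, 2 ≤ e.card

def E1 : Finset (Finset (ZMod 6)) :=
  {{0, 1}, {3, 4}, {1, 2, 3}, {4, 5, 0}}

def p : Equiv.Perm (ZMod 6) :=
  ⟨![0, 3, 5, 1, 4, 2], ![0, 3, 5, 1, 4, 2], by decide, by decide⟩

def E2 : Finset (Finset (ZMod 6)) := E1.image fun e => e.image p

lemma runs : ∀ e ∈ E1, ∃ (i : ZMod 6) (l : Fin 7), 1 ≤ l.1 ∧
    e = (Finset.range l).image fun t : ℕ => i + t := by decide +kernel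

/-- Two isomorphic chain-structured systems with exactly two 2-edges and no cooperative
colouring. -/
theorem result : ∃ (n : ℕ) (_ : NeZero n) (H₁ H₂ : Finset (Finset (ZMod n))),
    Chain H₁ ∧ Chain H₂ ∧ (∃ σ : Equiv.Perm (ZMod n), H₂ = H₁.image fun e => e.image σ) ∧
    TwoPairs H₁ ∧ TwoPairs H₂ ∧
    ¬ ∃ A B : Finset (ZMod n), Disjoint A B ∧ A ∪ B = Finset.univ ∧
      (∀ e ∈ H₁, ¬ e ⊆ A) ∧ ∀ e ∈ H₂, ¬ e ⊆ B := by
  refine ⟨6, inferInstance, E1, E2, ⟨1, fun e he => ?_⟩, ⟨p, fun e he => ?_⟩, ⟨p, rfl⟩,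
    by unfold TwoPairs; decide +kernel, by unfold TwoPairs; decide +kernel, by decide +kernel⟩
  · obtain ⟨i, l, h1, h2⟩ := runs e he
    exact ⟨i, l, h1, by have := l.2; omega, h2⟩
  · obtain ⟨f, hf, rfl⟩ := Finset.mem_image.mp he
    obtain ⟨i, l, h1, h2⟩ := runs f hf
    refine ⟨i, l, h1, by have := l.2; omega, ?_⟩
    rw [h2, Finset.image_image]
    rfl

end Pool.Agent.Results.MP_ace2a1_co.Cex
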